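import Pool.Agent.H554R2.RK.CoImmune

/-!
# Complements of disjunctions of one-pass programs and nondeterministic programs

For every `k` there are functions `f` of `n` Boolean variables which are the disjunction of a
constant number of functions computed by read-once branching programs with `O(n)` nodes, with a
fixed order of the variables (so they are computed by nondeterministic one-pass programs with `O(n)`
nodes and a constant number of guesses), while the negation of `f`, which is true for a constant
fraction of the inputs, is immune, and hard on average, for nondeterministic read-`k`-times branching
programs with fewer than `2 ^ (n / D)` nodes.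

The functions are given by random quadratic forms in blocks, the blocks coming from a constant
number of random partitions of the variables.  The inputs accepted by a nondeterministic
read-`k`-times program are a union of few rectangles, and in every large rectangle one of the forms
is almost balanced.

The lemmas were proved together with helper55, helper92, helper132, helper143, helper218, helper234,
helper259, helper409, helper431, helper463, helper556, helper724, helper819, helper873, and the
authors of `Pool.Agent.H554R2.Rnd` (random partitions and coefficients).
-/

set_option autoImplicit false

open Finset

namespace Pool.Agent.Results.MP_fa4772_lc.ComplementImmune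

open Pool.Agent.H554R2.Sem Pool.Agent.H554R2.Coin Pool.Agent.H554R2.RK

/-- For all `k` and `E > 0` there is a constant `D` such that for all `n ≥ D` there are `m ≤ D`
functions `q j` of `n` Boolean variables with the following properties.

* Each `q j` is computed by a deterministic program with at most `D n` nodes, which on all inputs
  queries the same variables in the same order, each of them at most once.
* All `q j` are false for at least the fraction `2 ^ (- D)` of the inputs.
* Let `P` be a nondeterministic program with fewer than `2 ^ (n / D)` nodes which on every path of
  the graph queries every variable at most `k` times.  The number of inputs accepted by `P` for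
  which all `q j` are false is at most `2 ^ (n / E)` times the number of inputs accepted by `P` for
  which some `q j` is true, plus `2 ^ (n - n / D)`. -/
theorem result (k E : ℕ) (hE : 0 < E) : ∃ D : ℕ, 0 < D ∧ ∀ n ≥ D,
    ∃ (m : ℕ) (q : Fin m → Pt n → Bool), m ≤ D ∧
    (∀ j, ∃ (U : BP (Fin n) Bool) (l : List (Fin n)), Fintype.card U.State ≤ D * n ∧ l.Nodup ∧
      ∀ x : Pt n, U.Comp x l (q j x)) ∧
    2 ^ n ≤ 2 ^ D * Nat.card {x : Pt n // ¬ ∃ j, q j x = true} ∧
    ∀ P : NBP (Fin n), ReadK P k → Fintype.card P.State < 2 ^ (n / D) →
      Nat.card {x // Acc P x ∧ ¬ ∃ j, q j x = true} ≤
        2 ^ (n / E) * Nat.card {x // Acc P x ∧ ∃ j, q j x = true} + 2 ^ (n - n / D) :=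
  coimmune_final k E hE

end Pool.Agent.Results.MP_fa4772_lc.ComplementImmune
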