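import Pool.Agent.H646R2.NT.Fin

/-!
The set of (programs of) time bounds `t` for which `NTIME(Pol t)` is closed under complementation
is `Π⁰₃`-complete.

All definitions used in the statement are in the file `Pool/Agent/H646R2/NT/Defs.lean`.
-/

set_option autoImplicit false

open Pool.Agent.H646R2.NT

namespace Pool.Agent.Results.MP_fa4772_lc.IndexSetPi3

/-- For every nonempty finite alphabet, the set of all programs of total functions `t` for which
`coNTIME(Pol t) = NTIME(Pol t)` is `Π⁰₃`, and every `Π⁰₃` set `A` is many-one reducible to it by a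
computable function `f` such that for all `x` the program `f x` computes a strictly increasing
function `t` above any computable function `h` given in advance, and
`coNTIME(Pol t) = NTIME(Pol t) = DTIME(Pol t)` if `x ∈ A`, whereas some language of `DTIME(Pol t)`
has a complement outside `NTIME(Pol t)` if `x ∉ A`. -/
theorem result (s : ℕ) :
    IsPi3 (closedIx s) ∧
      ∀ h : ℕ → ℕ, Computable h → ∀ A : Set ℕ, IsPi3 A →
        ∃ f : ℕ → ℕ, Computable f ∧ (∀ x, x ∈ A ↔ f x ∈ closedIx s) ∧
          ∀ x, ∃ t : ℕ → ℕ, Computes (f x) t ∧ StrictMono t ∧ (∀ n, h n ≤ t n) ∧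
            (x ∈ A → coNTIME s t = NTIME s t ∧ NTIME s t = DTIME s t) ∧
              (x ∉ A → ∃ L ∈ DTIME s t, Lᶜ ∉ NTIME s t) :=
  final s

end Pool.Agent.Results.MP_fa4772_lc.IndexSetPi3
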