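import Pool.Agent.H639R2.NTP.Final

/-!
# Time bounds just above the polynomials for which `NTIME(Pol t)` is not closed under complement

For every computable nondecreasing unbounded function `α` there is a computable time bound `t`
with `n ≤ t n ≤ n ^ (α n + 1)`, not bounded by a polynomial, for which `NTIME(Pol t)` is not
closed under complement.  No unproved hypothesis is used.

`NT t` is `NTIME(Pol t)` in certificate form.
-/

namespace Pool.Agent.Results.MP_fa4772_lc.NonclosedNearPolynomials

open Pool.Agent.H639R2.NTP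

theorem result (α : ℕ → ℕ) (hα : Computable α) (hm : Monotone α) (hu : ∀ k, ∃ n, k ≤ α n) :
    ∃ t : ℕ → ℕ, Computable t ∧ (∀ n, n ≤ t n ∧ t n ≤ n ^ (α n + 1)) ∧
      (∀ k, ∃ n, n ^ k < t n) ∧ ∃ L ∈ NT t, Lᶜ ∉ NT t :=
  final.1 α hα hm hu

end Pool.Agent.Results.MP_fa4772_lc.NonclosedNearPolynomials
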